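import Mathlib

/-!
# Matrix monomial manifolds which are not extremal

For all `m ≥ 2` (in fact `m ≥ 1`) and `r ≥ 2` there are pairwise distinct non-empty words
`p_1, …, p_n` in `r` letters with an integer relation `∑ c_l p_l(X) = 0` which holds for all
`m × m` matrices `X_1, …, X_r` (there are more words of length `L` than monomials of degree `≤ L` in
the entries of generic matrices, up to a constant). So all points of the manifold are very well
approximable.
-/

open Filter MeasureTheory

namespace Pool.Agent.Results.MP_ce417a_nt.PolynomialIdentities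

/-- `p(X)` for a word `p` -/
def evalWord {m r : ℕ} (X : Fin r → Matrix (Fin m) (Fin m) ℝ) (w : List (Fin r)) :
    Matrix (Fin m) (Fin m) ℝ := (w.map X).prod

/-- `p_1(X) ⊕ ⋯ ⊕ p_n(X)`: the matrix with the columns of `p_1(X)`, …, `p_n(X)` -/
def psi {m r n : ℕ} (P : Fin n → List (Fin r)) (X : Fin r → Matrix (Fin m) (Fin m) ℝ) :
    Matrix (Fin m) (Fin n × Fin m) ℝ := Matrix.of fun i c => evalWord X (P c.1) i c.2

/-- an integer vector as a real vector -/
def toReal {J : Type} (y : J → ℤ) : J → ℝ := fun i => (y i : ℝ)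

/-- `ω(A)`: the limsup of `- log ‖A q - p‖ / log ‖q‖` as `‖q‖ → ∞` (with `- log 0 = ∞`) -/
noncomputable def omega {m : ℕ} {J : Type} [Fintype J] (A : Matrix (Fin m) J ℝ) : EReal :=
  limsup (fun c : (J → ℤ) × (Fin m → ℤ) =>
    -(ENNReal.log (ENNReal.ofReal ‖A.mulVec (toReal c.1) - toReal c.2‖)) /
      ((Real.log ‖toReal c.1‖ : ℝ) : EReal)) (comap (fun c => ‖toReal c.1‖) atTop)

/-- `ω_×(A)`: the limsup of `- log ∏ |(A q - p)_i| / log ∏ max(|q_j|, 1)` as `‖q‖ → ∞` -/
noncomputable def omegaMul {m : ℕ} {J : Type} [Fintype J] (A : Matrix (Fin m) J ℝ) : EReal :=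
  limsup (fun c : (J → ℤ) × (Fin m → ℤ) =>
    -(ENNReal.log (ENNReal.ofReal (∏ i, |A.mulVec (toReal c.1) i - toReal c.2 i|))) /
      ((Real.log (∏ j, max |(c.1 j : ℝ)| 1) : ℝ) : EReal)) (comap (fun c => ‖toReal c.1‖) atTop)

/-- very well approximable `m × N` matrices: `ω(A) > N / m` -/
def VWA {m : ℕ} {J : Type} [Fintype J] (A : Matrix (Fin m) J ℝ) : Prop :=
  (((Fintype.card J : ℝ) / (m : ℝ) : ℝ) : EReal) < omega A

/-- very well multiplicatively approximable matrices: `ω_×(A) > 1` -/
def VWMA {m : ℕ} {J : Type} [Fintype J] (A : Matrix (Fin m) J ℝ) : Prop := 1 < omegaMul A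

/-- the manifold of `P` is extremal: `ψ(X)` is not VWA for almost all `X` -/
def Extremal (m : ℕ) {r n : ℕ} (P : Fin n → List (Fin r)) : Prop :=
  ∀ᵐ X : Fin r → Fin m → Fin m → ℝ, ¬ VWA (psi P fun k => Matrix.of (X k))

/-- the manifold of `P` is strongly extremal: `ψ(X)` is not VWMA for almost all `X` -/
def StronglyExtremal (m : ℕ) {r n : ℕ} (P : Fin n → List (Fin r)) : Prop :=
  ∀ᵐ X : Fin r → Fin m → Fin m → ℝ, ¬ VWMA (psi P fun k => Matrix.of (X k))

/-! ### Generic matrices -/

/-- the variables: the entries of `r` matrices -/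
abbrev Var (m r : ℕ) : Type := Fin r × Fin m × Fin m

/-- the generic matrices -/
noncomputable def gen (m r : ℕ) (k : Fin r) :
    Matrix (Fin m) (Fin m) (MvPolynomial (Var m r) ℤ) :=
  Matrix.of fun i j => MvPolynomial.X (k, i, j)

theorem degree_prod (m r : ℕ) (w : List (Fin r)) (i j : Fin m) :
    ((w.map (gen m r)).prod i j).totalDegree ≤ w.length := by
  induction w generalizing i with
  | nil =>
    simp only [List.map_nil, List.prod_nil, List.length_nil, Matrix.one_apply]
    split_ifs
    · rw [MvPolynomial.totalDegree_one]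
    · rw [MvPolynomial.totalDegree_zero]
  | cons k w ih =>
    rw [List.map_cons, List.prod_cons, Matrix.mul_apply, List.length_cons]
    refine (MvPolynomial.totalDegree_finsetSum _ _).trans (Finset.sup_le fun l _ => ?_)
    refine (MvPolynomial.totalDegree_mul _ _).trans ?_
    have h1 : (gen m r k i l).totalDegree ≤ 1 := by
      unfold gen
      rw [Matrix.of_apply, MvPolynomial.totalDegree_X]
    have h2 := ih l
    omega

/-- the values of the variables at `X` -/
def vals {m r : ℕ} (X : Fin r → Matrix (Fin m) (Fin m) ℝ) : Var m r → ℝ :=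
  fun v => X v.1 v.2.1 v.2.2

theorem eval_prod {m r : ℕ} (X : Fin r → Matrix (Fin m) (Fin m) ℝ) (w : List (Fin r))
    (i j : Fin m) :
    MvPolynomial.eval₂ (Int.castRingHom ℝ) (vals X) ((w.map (gen m r)).prod i j) =
      evalWord X w i j := by
  unfold evalWord
  induction w generalizing i with
  | nil =>
    simp only [List.map_nil, List.prod_nil, Matrix.one_apply]
    split_ifs
    · exact MvPolynomial.eval₂_one _ _
    · exact MvPolynomial.eval₂_zero _ _
  | cons k w ih =>
    rw [List.map_cons, List.prod_cons, List.map_cons, List.prod_cons, Matrix.mul_apply,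
      Matrix.mul_apply, MvPolynomial.eval₂_sum]
    refine Finset.sum_congr rfl fun l _ => ?_
    rw [MvPolynomial.eval₂_mul, ih]
    congr 1
    unfold gen
    rw [Matrix.of_apply, MvPolynomial.eval₂_X]
    rfl

/-- there are more words than monomials -/
theorem exists_length (m r : ℕ) (hr : 2 ≤ r) :
    ∃ L : ℕ, 1 ≤ L ∧ m * (m * (L + 1) ^ (r * (m * m))) < r ^ L := by
  have hr1 : (1 : ℝ) < r := by exact_mod_cast (by omega : 1 < r)
  have h := tendsto_pow_const_div_const_pow_of_one_lt (r * (m * m)) hr1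
  have h2 : Tendsto (fun n : ℕ => ((m : ℝ) * m * r) * ((n : ℝ) ^ (r * (m * m)) / (r : ℝ) ^ n))
      atTop (nhds (((m : ℝ) * m * r) * 0)) := h.const_mul _
  rw [mul_zero] at h2
  have h3 := (h2.eventually (gt_mem_nhds (by norm_num : (0 : ℝ) < 1)))
  obtain ⟨N, hN⟩ := eventually_atTop.1 h3
  refine ⟨N + 1, by omega, ?_⟩
  have h4 := hN (N + 1 + 1) (by omega)
  have hrp : (0 : ℝ) < r := by linarith
  rw [← mul_div_assoc, div_lt_one (by positivity)] at h4
  have h5 : ((m * (m * (N + 1 + 1) ^ (r * (m * m))) : ℕ) : ℝ) * r < ((r ^ (N + 1) : ℕ) : ℝ) * r := by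
    push_cast
    push_cast at h4
    calc (m : ℝ) * (m * ((N : ℝ) + 1 + 1) ^ (r * (m * m))) * r
        = (m : ℝ) * m * r * ((N : ℝ) + 1 + 1) ^ (r * (m * m)) := by ring
      _ < (r : ℝ) ^ (N + 1 + 1) := h4
      _ = (r : ℝ) ^ (N + 1) * r := pow_succ _ _
  have h6 := lt_of_mul_lt_mul_right h5 hrp.le
  exact_mod_cast h6

/-- a polynomial identity of `m × m` matrices with integer coefficients, supported on words of
length `L` -/
theorem exists_identity (m r : ℕ) (hm : 1 ≤ m) (hr : 2 ≤ r) :
    ∃ (L : ℕ) (c : (Fin L → Fin r) → ℤ), 1 ≤ L ∧ c ≠ 0 ∧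
      ∀ (X : Fin r → Matrix (Fin m) (Fin m) ℝ) (i j : Fin m),
        ∑ w, (c w : ℝ) * evalWord X (List.ofFn w) i j = 0 := by
  classical
  obtain ⟨L, hL1, hL⟩ := exists_length m r hr
  -- the coefficient matrix
  let B : Matrix (Fin m × Fin m × (Var m r → Fin (L + 1))) (Fin L → Fin r) ℤ :=
    Matrix.of fun a w => MvPolynomial.coeff (Finsupp.equivFunOnFinite.symm fun v => (a.2.2 v : ℕ))
      (((List.ofFn w).map (gen m r)).prod a.1 a.2.1)
  have hcard : Fintype.card (Fin m × Fin m × (Var m r → Fin (L + 1))) <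
      Fintype.card (Fin L → Fin r) := by
    simp only [Fintype.card_prod, Fintype.card_fun, Fintype.card_fin]
    exact hL
  have hpos : 0 < Fintype.card (Fin m × Fin m × (Var m r → Fin (L + 1))) := by
    have : Nonempty (Fin m) := ⟨⟨0, hm⟩⟩
    exact Fintype.card_pos
  obtain ⟨c, hc0, hc, -⟩ := Int.Matrix.exists_ne_zero_int_vec_norm_le B hcard hpos
  refine ⟨L, c, hL1, hc0, ?_⟩
  have hpoly : ∀ i j : Fin m, ∑ w, MvPolynomial.C (c w) *
      ((List.ofFn w).map (gen m r)).prod i j = 0 := by
    intro i j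
    ext e
    rw [MvPolynomial.coeff_sum, MvPolynomial.coeff_zero]
    simp only [MvPolynomial.coeff_C_mul]
    by_cases he : ∀ v, e v ≤ L
    · have h := congrFun hc (i, j, fun v => ⟨e v, Nat.lt_succ_of_le (he v)⟩)
      have e1 : (Finsupp.equivFunOnFinite.symm fun v : Var m r => e v) = e := by
        ext v
        rfl
      simp only [Matrix.mulVec, dotProduct, B, Matrix.of_apply, Pi.zero_apply] at h
      rw [e1] at h
      rw [← h]
      exact Finset.sum_congr rfl fun w _ => mul_comm _ _
    · push Not at he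
      obtain ⟨v, hv⟩ := he
      refine Finset.sum_eq_zero fun w _ => ?_
      have h0 : MvPolynomial.coeff e (((List.ofFn w).map (gen m r)).prod i j) = 0 := by
        by_contra hne
        have h1 := MvPolynomial.le_totalDegree (MvPolynomial.mem_support_iff.2 hne)
        have h2 := degree_prod m r (List.ofFn w) i j
        rw [List.length_ofFn] at h2
        have h3 : e v ≤ e.sum fun _ n => n := by
          rw [Finsupp.sum_fintype _ _ (fun _ => rfl)]
          exact Finset.single_le_sum (f := fun v => e v) (fun _ _ => Nat.zero_le _)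
            (Finset.mem_univ v)
        omega
      rw [h0, mul_zero]
  intro X i j
  have h := congrArg (MvPolynomial.eval₂ (Int.castRingHom ℝ) (vals X)) (hpoly i j)
  rw [MvPolynomial.eval₂_sum, MvPolynomial.eval₂_zero] at h
  rw [← h]
  refine Finset.sum_congr rfl fun w _ => ?_
  rw [MvPolynomial.eval₂_mul, MvPolynomial.eval₂_C, eval_prod]
  rfl

/-! ### Matrices with an integer vector in the kernel -/

theorem toReal_smul {J : Type} (K : ℕ) (q : J → ℤ) : toReal ((K : ℤ) • q) = (K : ℝ) • toReal q := by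
  funext j
  simp [toReal]

theorem tendsto_mult {m : ℕ} {J : Type} [Fintype J] (q : J → ℤ) (hq : q ≠ 0) :
    Tendsto (fun K : ℕ => (((K : ℤ) • q, 0) : (J → ℤ) × (Fin m → ℤ))) atTop
      (comap (fun c : (J → ℤ) × (Fin m → ℤ) => ‖toReal c.1‖) atTop) := by
  rw [tendsto_comap_iff]
  have e : (fun c : (J → ℤ) × (Fin m → ℤ) => ‖toReal c.1‖) ∘
      (fun K : ℕ => (((K : ℤ) • q, 0) : (J → ℤ) × (Fin m → ℤ))) =
      fun K : ℕ => (K : ℝ) * ‖toReal q‖ := by
    funext K
    show ‖toReal ((K : ℤ) • q)‖ = _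
    rw [toReal_smul, norm_smul, Real.norm_eq_abs, Nat.abs_cast]
  rw [e]
  refine Tendsto.atTop_mul_const ?_ tendsto_natCast_atTop_atTop
  rw [norm_pos_iff]
  intro h
  apply hq
  funext j
  have := congrFun h j
  simpa [toReal] using this

theorem omega_eq_top {m : ℕ} (hm : 1 ≤ m) {J : Type} [Fintype J] (A : Matrix (Fin m) J ℝ)
    (q : J → ℤ) (hq : q ≠ 0) (h : A.mulVec (toReal q) = 0) : omega A = ⊤ ∧ omegaMul A = ⊤ := by
  have hA : ∀ K : ℕ, A.mulVec (toReal ((K : ℤ) • q)) = 0 := by
    intro K
    rw [toReal_smul, Matrix.mulVec_smul, h, smul_zero]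
  have h0 : toReal (0 : Fin m → ℤ) = 0 := by
    funext i
    simp [toReal]
  obtain ⟨j₀, hj₀⟩ : ∃ j, q j ≠ 0 := by
    by_contra hcon
    push Not at hcon
    exact hq (funext hcon)
  have hj1 : (1 : ℝ) ≤ |(q j₀ : ℝ)| := by exact_mod_cast Int.one_le_abs hj₀
  constructor
  · rw [← top_le_iff]
    refine le_limsup_of_frequently_le' ((tendsto_mult (m := m) q hq).frequently ?_)
    refine Eventually.frequently ?_
    filter_upwards [eventually_ge_atTop 2] with K hK
    have hK2 : (2 : ℝ) ≤ K := by exact_mod_cast hK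
    rw [hA, h0, sub_zero, norm_zero, ENNReal.ofReal_zero, ENNReal.log_zero, EReal.neg_bot]
    have hn : 1 < ‖toReal ((K : ℤ) • q)‖ := by
      have h1 := norm_le_pi_norm (toReal ((K : ℤ) • q)) j₀
      have h2 : ‖toReal ((K : ℤ) • q) j₀‖ = K * |(q j₀ : ℝ)| := by
        rw [toReal_smul, Pi.smul_apply, norm_smul, Real.norm_eq_abs, Nat.abs_cast,
          Real.norm_eq_abs]
        rfl
      rw [h2] at h1
      nlinarith
    rw [EReal.top_div_of_pos_ne_top _ (EReal.coe_ne_top _)]
    exact_mod_cast Real.log_pos hn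
  · rw [← top_le_iff]
    refine le_limsup_of_frequently_le' ((tendsto_mult (m := m) q hq).frequently ?_)
    refine Eventually.frequently ?_
    filter_upwards [eventually_ge_atTop 2] with K hK
    have hK2 : (2 : ℝ) ≤ K := by exact_mod_cast hK
    rw [hA, h0]
    have hprod : ∏ i : Fin m, |(0 : Fin m → ℝ) i - (0 : Fin m → ℝ) i| = 0 := by
      apply Finset.prod_eq_zero (Finset.mem_univ (⟨0, hm⟩ : Fin m))
      simp
    rw [hprod, ENNReal.ofReal_zero, ENNReal.log_zero, EReal.neg_bot]
    have hn : 1 < ∏ j, max |(((K : ℤ) • q) j : ℝ)| 1 := by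
      have h2 : (2 : ℝ) ≤ max |(((K : ℤ) • q) j₀ : ℝ)| 1 := by
        refine le_max_of_le_left ?_
        rw [Pi.smul_apply, smul_eq_mul]
        push_cast
        rw [abs_mul, Nat.abs_cast]
        nlinarith
      have h3 : max |(((K : ℤ) • q) j₀ : ℝ)| 1 ≤ ∏ j, max |(((K : ℤ) • q) j : ℝ)| 1 := by
        classical
        rw [← Finset.mul_prod_erase Finset.univ _ (Finset.mem_univ j₀)]
        refine le_mul_of_one_le_right (by positivity) ?_
        exact Finset.one_le_prod fun j _ => le_max_right _ _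
      linarith
    rw [EReal.top_div_of_pos_ne_top _ (EReal.coe_ne_top _)]
    exact_mod_cast Real.log_pos hn

/-- **Matrix monomial manifolds which are not extremal.** For all `m ≥ 2` and `r ≥ 2` there are
`n ≥ 1` and pairwise distinct non-empty words `p_1, …, p_n` in `x_1, …, x_r` such that for ALL
`m × m` matrices `X_1, …, X_r` the matrix `p_1(X) ⊕ ⋯ ⊕ p_n(X)` is VWA and VWMA. So the manifold is
neither extremal nor strongly extremal. -/
theorem result (m r : ℕ) (hm : 2 ≤ m) (hr : 2 ≤ r) :
    ∃ (n : ℕ) (P : Fin n → List (Fin r)), 1 ≤ n ∧ Function.Injective P ∧ (∀ l, P l ≠ []) ∧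
      (∀ X : Fin r → Matrix (Fin m) (Fin m) ℝ, VWA (psi P X) ∧ VWMA (psi P X)) ∧
      ¬ Extremal m P ∧ ¬ StronglyExtremal m P := by
  classical
  obtain ⟨L, c, hL, hc, hid⟩ := exists_identity m r (by omega) hr
  let e := (Fintype.equivFin (Fin L → Fin r)).symm
  let P : Fin (Fintype.card (Fin L → Fin r)) → List (Fin r) := fun l => List.ofFn (e l)
  have hall : ∀ X : Fin r → Matrix (Fin m) (Fin m) ℝ, VWA (psi P X) ∧ VWMA (psi P X) := by
    intro X
    have hm0 : 0 < m := by omega
    let q : Fin (Fintype.card (Fin L → Fin r)) × Fin m → ℤ := fun a =>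
      if a.2 = ⟨0, hm0⟩ then c (e a.1) else 0
    have hq : q ≠ 0 := by
      intro h
      apply hc
      funext w
      have := congrFun h (e.symm w, ⟨0, hm0⟩)
      simpa [q] using this
    have hker : (psi P X).mulVec (toReal q) = 0 := by
      funext i
      unfold Matrix.mulVec dotProduct
      rw [Fintype.sum_prod_type]
      have h1 : ∀ l, ∑ j, psi P X i (l, j) * toReal q (l, j) =
          (c (e l) : ℝ) * evalWord X (List.ofFn (e l)) i ⟨0, hm0⟩ := by
        intro l
        rw [Finset.sum_eq_single (⟨0, hm0⟩ : Fin m)]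
        · simp only [psi, Matrix.of_apply, toReal, q, if_true, P]
          ring
        · intro j _ hj
          simp [toReal, q, hj]
        · intro h
          exact absurd (Finset.mem_univ _) h
      rw [Finset.sum_congr rfl fun l _ => h1 l]
      rw [e.sum_comp (fun w => (c w : ℝ) * evalWord X (List.ofFn w) i ⟨0, hm0⟩)]
      exact hid X i _
    obtain ⟨h1, h2⟩ := omega_eq_top (by omega) (psi P X) q hq hker
    constructor
    · unfold VWA
      rw [h1]
      exact EReal.coe_lt_top _
    · unfold VWMA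
      rw [h2]
      exact EReal.coe_lt_top 1
  have hne : (ae (volume : Measure (Fin r → Fin m → Fin m → ℝ))).NeBot := by
    rw [ae_neBot]
    intro h0
    have i1 : (volume : Measure (Fin m → Fin m → ℝ)).IsOpenPosMeasure := inferInstance
    have i2 : (volume : Measure (Fin r → Fin m → Fin m → ℝ)).IsOpenPosMeasure :=
      MeasureTheory.Measure.pi.isOpenPosMeasure fun _ : Fin r =>
        (volume : Measure (Fin m → Fin m → ℝ))
    have h1 := isOpen_univ.measure_pos (volume : Measure (Fin r → Fin m → Fin m → ℝ))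
      Set.univ_nonempty
    rw [h0] at h1
    simp at h1
  refine ⟨_, P, ?_, ?_, ?_, hall, ?_, ?_⟩
  · have : Nonempty (Fin r) := ⟨⟨0, by omega⟩⟩
    exact Fintype.card_pos
  · intro a b hab
    exact e.injective (List.ofFn_injective hab)
  · intro l h
    have := congrArg List.length h
    simp [P] at this
    omega
  · intro h
    have h1 := h.exists
    obtain ⟨X, hX⟩ := h1
    exact hX (hall _).1
  · intro h
    obtain ⟨X, hX⟩ := h.exists
    exact hX (hall _).2

end Pool.Agent.Results.MP_ce417a_nt.PolynomialIdentities
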